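import Mathlib
import Pool.Agent.Lib.MP_64d5df_nt.Basic

/-!
Question Q1 of MP_64d5df_nt is equivalent, for each cardinality `n` separately, to the lonely
runner conjecture for `n`-sets.  Already closure under one single fixed translation is
equivalent to it, and so is closure only for sets of odd numbers containing `1`.
-/

namespace Pool.Agent.Results.MP_64d5df_nt.ClosureIffLonelyRunner

open Pool.Agent.Lib.MP_64d5df_nt

/-- The set `{2 (w - m) + 1 : w ∈ W}`. -/
def oddCopy (m : ℕ) (W : Finset ℕ) : Finset ℕ := W.image (fun w => 2 * (w - m) + 1)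

lemma odd_of_mem_oddCopy {m : ℕ} {W : Finset ℕ} : ∀ v ∈ oddCopy m W, Odd v := by
  intro v hv
  obtain ⟨w, _, rfl⟩ := Finset.mem_image.mp hv
  exact ⟨w - m, rfl⟩

lemma isSpeedSet_oddCopy {n m : ℕ} {W : Finset ℕ} (hW : W.card = n) (hle : ∀ w ∈ W, m ≤ w) :
    IsSpeedSet n (oddCopy m W) := by
  constructor
  · rw [oddCopy, Finset.card_image_of_injOn, hW]
    intro x hx y hy hxy
    have h1 := hle x hx
    have h2 := hle y hy
    have h3 : 2 * (x - m) + 1 = 2 * (y - m) + 1 := hxy
    omega
  · intro v hv
    have := (odd_of_mem_oddCopy v hv).pos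
    omega

/-- For all `n, a ≥ 1` the following are equivalent:
* Q1 for `n`-sets;
* Q1 for `n`-sets and the single translation by `a`;
* Q1 for the `n`-sets of odd numbers which contain `1` (their gap is `1/2`);
* the lonely runner conjecture for `n`-sets. -/
theorem result (n : ℕ) (hn : 1 ≤ n) (a : ℕ) (ha : 0 < a) : List.TFAE [
    (∀ V : Finset ℕ, IsSpeedSet n V → 1 / ((n : ℝ) + 1) ≤ kappa V →
      ∀ b : ℕ, 0 < b → 1 / ((n : ℝ) + 1) ≤ kappa (shiftBy b V)),
    (∀ V : Finset ℕ, IsSpeedSet n V → 1 / ((n : ℝ) + 1) ≤ kappa V →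
      1 / ((n : ℝ) + 1) ≤ kappa (shiftBy a V)),
    (∀ V : Finset ℕ, IsSpeedSet n V → 1 ∈ V → (∀ v ∈ V, Odd v) → kappa V = 1 / 2 →
      ∀ b : ℕ, 0 < b → 1 / ((n : ℝ) + 1) ≤ kappa (shiftBy b V)),
    (∀ W : Finset ℕ, IsSpeedSet n W → 1 / ((n : ℝ) + 1) ≤ kappa W)] := by
  have hn' : (1 : ℝ) ≤ n := by exact_mod_cast hn
  have hhalf : 1 / ((n : ℝ) + 1) ≤ 1 / 2 := by
    apply one_div_le_one_div_of_le <;> linarith
  tfae_have 1 → 3 := by
    intro h V hV _ _ hk b hb
    exact h V hV (hk ▸ hhalf) b hb
  tfae_have 1 → 2 := by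
    intro h V hV hk
    exact h V hV hk a ha
  tfae_have 3 → 4 := by
    intro h W hW
    have hne := hW.nonempty hn
    set m := W.min' hne with hm
    have hmem : m ∈ W := Finset.min'_mem W hne
    have hmpos : 0 < m := hW.2 m hmem
    have hle : ∀ w ∈ W, m ≤ w := fun w hw => Finset.min'_le W w hw
    have hV : IsSpeedSet n (oddCopy m W) := isSpeedSet_oddCopy hW.1 hle
    have hshift : shiftBy (2 * m - 1) (oddCopy m W) = W.image (fun w => 2 * w) := by
      rw [shiftBy, oddCopy, Finset.image_image]
      apply Finset.image_congr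
      intro w hw
      have := hle w hw
      simp only [Function.comp]
      omega
    have := h (oddCopy m W) hV (Finset.mem_image.mpr ⟨m, hmem, by omega⟩) odd_of_mem_oddCopy
      (kappa_of_odd (hV.nonempty hn) odd_of_mem_oddCopy) (2 * m - 1) (by omega)
    rwa [hshift, kappa_image_mul _ (by norm_num)] at this
  tfae_have 2 → 4 := by
    intro h W hW
    have hne := hW.nonempty hn
    set m := W.min' hne with hm
    have hmem : m ∈ W := Finset.min'_mem W hne
    have hmpos : 0 < m := hW.2 m hmem
    have hle : ∀ w ∈ W, m ≤ w := fun w hw => Finset.min'_le W w hw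
    have hV : IsSpeedSet n (oddCopy m W) := isSpeedSet_oddCopy hW.1 hle
    set V₀ : Finset ℕ := (oddCopy m W).image (fun v => a * v) with hV₀
    have hV₀s : IsSpeedSet n V₀ := by
      constructor
      · rw [hV₀, Finset.card_image_of_injective _ (fun x y hxy =>
          Nat.eq_of_mul_eq_mul_left ha hxy), hV.1]
      · intro v hv
        obtain ⟨w, hw, rfl⟩ := Finset.mem_image.mp hv
        exact Nat.mul_pos ha (hV.2 w hw)
    have hiter : ∀ k : ℕ, 1 / ((n : ℝ) + 1) ≤ kappa (shiftBy (k * a) V₀) := by
      intro k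
      induction k with
      | zero =>
        have h0 : shiftBy (0 * a) V₀ = V₀ := by
          rw [shiftBy]
          simp
        rw [h0, hV₀, kappa_image_mul _ ha,
          kappa_of_odd (hV.nonempty hn) odd_of_mem_oddCopy]
        exact hhalf
      | succ k ih =>
        have h1 : shiftBy ((k + 1) * a) V₀ = shiftBy a (shiftBy (k * a) V₀) := by
          rw [shiftBy_shiftBy]
          congr 1
          ring
        rw [h1]
        exact h _ (isSpeedSet_shiftBy hV₀s) ih
    have hshift : shiftBy ((2 * m - 1) * a) V₀ = W.image (fun w => (2 * a) * w) := by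
      rw [shiftBy, hV₀, oddCopy, Finset.image_image, Finset.image_image]
      apply Finset.image_congr
      intro w hw
      have h1 := hle w hw
      simp only [Function.comp]
      obtain ⟨d, rfl⟩ := Nat.exists_eq_add_of_le h1
      obtain ⟨m', hm'⟩ := Nat.exists_eq_add_of_lt hmpos
      have h2 : 2 * m - 1 = 2 * m' + 1 := by omega
      have h3 : m + d - m = d := by omega
      rw [h2, h3, hm']
      ring
    have := hiter (2 * m - 1)
    rwa [hshift, kappa_image_mul _ (by positivity)] at this
  tfae_have 4 → 1 := by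
    intro h V hV _ b _
    exact h _ (isSpeedSet_shiftBy hV)
  tfae_finish

end Pool.Agent.Results.MP_64d5df_nt.ClosureIffLonelyRunner
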