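import Mathlib
import Pool.Agent.Lib.MP_64d5df_nt.Basic

/-!
Question Q2 of MP_64d5df_nt fails also under the usual normalisation `gcd = 1` of both sets,
for every `n ≥ 3`, and in a near-extreme way: the gap of `V` can be as close to `1/2` as we
like (but is `< 1/2`), while the gap of `1 + V` is `1/n`.
-/

namespace Pool.Agent.Results.MP_64d5df_nt.PrimitiveTranslationFails

open Pool.Agent.Lib.MP_64d5df_nt

/-- `{1, 3, …, 2n-3} ∪ {e}`. -/
def fam (n e : ℕ) : Finset ℕ := insert e ((Finset.range (n - 1)).image (fun i => 2 * i + 1))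

lemma mem_fam {n e v : ℕ} : v ∈ fam n e ↔ v = e ∨ ∃ i, i < n - 1 ∧ 2 * i + 1 = v := by
  simp [fam]

lemma isSpeedSet_fam {n m : ℕ} (hn : 3 ≤ n) (hm : 0 < m) : IsSpeedSet n (fam n (2 * n * m)) := by
  constructor
  · rw [fam, Finset.card_insert_of_notMem, Finset.card_image_of_injective, Finset.card_range]
    · omega
    · intro x y h
      have h' : 2 * x + 1 = 2 * y + 1 := h
      omega
    · intro h
      obtain ⟨i, _, hi⟩ := Finset.mem_image.mp h
      have : 2 * i + 1 = 2 * (n * m) := by rw [hi]; ring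
      omega
  · intro v hv
    rcases mem_fam.mp hv with rfl | ⟨i, _, rfl⟩
    · have : 0 < n := by omega
      positivity
    · omega

lemma mem_shift_fam {n e w : ℕ} :
    w ∈ shiftBy 1 (fam n e) ↔ w = e + 1 ∨ ∃ i, i < n - 1 ∧ 2 * i + 2 = w := by
  rw [mem_shiftBy]
  constructor
  · rintro ⟨v, hv, rfl⟩
    rcases mem_fam.mp hv with rfl | ⟨i, hi, rfl⟩
    · left; omega
    · right; exact ⟨i, hi, by omega⟩
  · rintro (rfl | ⟨i, hi, rfl⟩)
    · exact ⟨e, mem_fam.mpr (Or.inl rfl), by omega⟩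
    · exact ⟨2 * i + 1, mem_fam.mpr (Or.inr ⟨i, hi, rfl⟩), by omega⟩

lemma gcd_fam {n m : ℕ} (hn : 3 ≤ n) : (fam n (2 * n * m)).gcd id = 1 := by
  have h1 : (1 : ℕ) ∈ fam n (2 * n * m) := mem_fam.mpr (Or.inr ⟨0, by omega, by omega⟩)
  have := Finset.gcd_dvd (f := id) h1
  exact Nat.dvd_one.mp this

lemma gcd_shift_fam {n m : ℕ} (hn : 3 ≤ n) : (shiftBy 1 (fam n (2 * n * m))).gcd id = 1 := by
  have h1 : (2 : ℕ) ∈ shiftBy 1 (fam n (2 * n * m)) :=
    mem_shift_fam.mpr (Or.inr ⟨0, by omega, by omega⟩)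
  have h2 : 2 * n * m + 1 ∈ shiftBy 1 (fam n (2 * n * m)) := mem_shift_fam.mpr (Or.inl rfl)
  have d1 := Finset.gcd_dvd (f := id) h1
  have d2 := Finset.gcd_dvd (f := id) h2
  simp only [id] at d1 d2
  have hcop : Nat.Coprime 2 (2 * n * m + 1) := by
    rw [Nat.coprime_two_left]
    exact ⟨n * m, by ring⟩
  have d3 := Nat.dvd_gcd d1 d2
  rw [hcop] at d3
  exact Nat.dvd_one.mp d3

lemma kappa_fam_lower {n m : ℕ} (hn : 3 ≤ n) (hm : 0 < m) :
    (2 * n * m : ℝ) / (2 * (2 * n * m + (2 * n - 3))) ≤ kappa (fam n (2 * n * m)) := by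
  have hn' : (3 : ℝ) ≤ n := by exact_mod_cast hn
  have hm' : (1 : ℝ) ≤ m := by exact_mod_cast hm
  have hE : (0 : ℝ) < 2 * n * m := by positivity
  set E : ℝ := 2 * n * m with hEdef
  have hD : (0 : ℝ) < 2 * (E + (2 * n - 3)) := by linarith
  -- time t = 1/2 - δ with δ = 1 / (2 (E + 2n - 3))
  set δ : ℝ := 1 / (2 * (E + (2 * n - 3))) with hδ
  have hδpos : 0 < δ := by positivity
  have hval : E / (2 * (E + (2 * n - 3))) = E * δ := by rw [hδ]; ring
  have hone : (E + (2 * n - 3)) * δ = 1 / 2 := by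
    have hD' : E + (2 * n - 3) ≠ 0 := by linarith
    rw [hδ]
    field_simp
  rw [hval]
  apply le_kappa ((isSpeedSet_fam hn hm).nonempty (by omega)) (1 / 2 - δ)
  intro v hv
  rcases mem_fam.mp hv with rfl | ⟨i, hi, rfl⟩
  · -- even speed
    apply le_distInt_of_mem ((n * m : ℤ) - 1)
    · push_cast
      nlinarith
    · push_cast
      nlinarith
  · -- odd speed 2 i + 1
    have hi' : (i : ℝ) + 1 ≤ n - 1 := by
      have : i + 1 + 1 ≤ n := by omega
      have : ((i : ℝ) + 1 + 1) ≤ n := by exact_mod_cast this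
      linarith
    have hi0 : (0 : ℝ) ≤ i := Nat.cast_nonneg i
    have hmul : (2 * (i : ℝ) + 1) * δ ≤ (2 * n - 3) * δ :=
      mul_le_mul_of_nonneg_right (by linarith) hδpos.le
    have hmul0 : 0 ≤ (2 * (i : ℝ) + 1) * δ := by positivity
    apply le_distInt_of_mem (i : ℤ)
    · push_cast
      nlinarith
    · push_cast
      nlinarith

theorem result :
    ∀ n : ℕ, 3 ≤ n → ∀ ε : ℝ, 0 < ε → ∃ V : Finset ℕ, IsSpeedSet n V ∧
      V.gcd id = 1 ∧ (shiftBy 1 V).gcd id = 1 ∧
      1 / 2 - ε < kappa V ∧ kappa V < 1 / 2 ∧ kappa (shiftBy 1 V) = 1 / (n : ℝ) := by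
  intro n hn ε hε
  have hn' : (3 : ℝ) ≤ n := by exact_mod_cast hn
  obtain ⟨m, hm⟩ := exists_nat_gt (max 1 (1 / ε))
  have hm1 : (1 : ℝ) < m := lt_of_le_of_lt (le_max_left _ _) hm
  have hm2 : 1 / ε < m := lt_of_le_of_lt (le_max_right _ _) hm
  have hm0 : 0 < m := by
    have : (0 : ℝ) < m := by linarith
    exact_mod_cast this
  refine ⟨fam n (2 * n * m), isSpeedSet_fam hn hm0, gcd_fam hn, gcd_shift_fam hn, ?_, ?_, ?_⟩
  · refine lt_of_lt_of_le ?_ (kappa_fam_lower hn hm0)
    have hE : (0 : ℝ) < 2 * n * m := by positivity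
    have hD : (0 : ℝ) < 2 * (2 * n * m + (2 * n - 3)) := by linarith
    rw [lt_div_iff₀ hD]
    have h1 : 1 < ε * m := by
      rw [div_lt_iff₀ hε] at hm2
      linarith
    nlinarith
  · have h1 : (1 : ℕ) ∈ fam n (2 * n * m) := mem_fam.mpr (Or.inr ⟨0, by omega, by omega⟩)
    have h2 : 2 * n * m ∈ fam n (2 * n * m) := mem_fam.mpr (Or.inl rfl)
    refine lt_of_le_of_lt (kappa_le_of_pair h1 h2 ⟨n * m, by ring⟩) ?_
    have : (0 : ℝ) < 1 / (2 * (((1 : ℕ) : ℝ) + ((2 * n * m : ℕ) : ℝ))) := by positivity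
    linarith
  · apply le_antisymm
    · -- contains 2 * {1, …, n-1}
      have hsub : (Finset.Icc 1 (n - 1)).image (fun v => 2 * v) ⊆
          shiftBy 1 (fam n (2 * n * m)) := by
        intro w hw
        obtain ⟨v, hv, rfl⟩ := Finset.mem_image.mp hw
        rw [Finset.mem_Icc] at hv
        exact mem_shift_fam.mpr (Or.inr ⟨v - 1, by omega, by omega⟩)
      refine (kappa_mono ?_ hsub).trans ?_
      · exact ⟨2, Finset.mem_image.mpr ⟨1, by simp; omega, rfl⟩⟩
      · rw [kappa_image_mul _ (by norm_num), kappa_Icc (by omega)]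
        rw [Nat.cast_sub (by omega)]
        simp
    · apply le_kappa ((isSpeedSet_shiftBy (isSpeedSet_fam hn hm0)).nonempty (by omega))
        (1 / (2 * n) + 1 / 2)
      intro w hw
      have hnpos : (0 : ℝ) < n := by linarith
      rcases mem_shift_fam.mp hw with rfl | ⟨i, hi, rfl⟩
      · -- w = 2 n m + 1
        have e : (1 / (2 * (n : ℝ)) + 1 / 2) * ((2 * n * m + 1 : ℕ) : ℝ) - ((m + n * m : ℤ) : ℝ)
            = 1 / (2 * n) + 1 / 2 := by
          push_cast
          field_simp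
          ring
        have h3 : 1 / (n : ℝ) ≤ 1 / 3 := one_div_le_one_div_of_le (by norm_num) hn'
        have h4 : 1 / (2 * (n : ℝ)) = (1 / n) / 2 := by field_simp
        have h5 : 0 < 1 / (n : ℝ) := by positivity
        apply le_distInt_of_mem (m + n * m : ℤ)
        · rw [e, h4]; linarith
        · rw [e, h4]; linarith
      · have e : (1 / (2 * (n : ℝ)) + 1 / 2) * ((2 * i + 2 : ℕ) : ℝ) - ((i + 1 : ℤ) : ℝ)
            = (i + 1) / n := by
          push_cast
          field_simp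
          ring
        have hi' : (i : ℝ) + 1 ≤ n - 1 := by
          have : i + 1 + 1 ≤ n := by omega
          have : ((i : ℝ) + 1 + 1) ≤ n := by exact_mod_cast this
          linarith
        apply le_distInt_of_mem (i + 1 : ℤ)
        · rw [e]
          apply div_le_div_of_nonneg_right _ hnpos.le
          linarith [(Nat.cast_nonneg i : (0 : ℝ) ≤ i)]
        · rw [e, div_le_iff₀ hnpos, sub_mul, one_div_mul_cancel hnpos.ne']
          linarith

end Pool.Agent.Results.MP_64d5df_nt.PrimitiveTranslationFails
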