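import Mathlib
import Pool.Agent.Lib.MP_64d5df_nt.Basic
import Pool.Agent.Results.MP_64d5df_nt.PrimitiveTranslationFails

/-!
The primitive version of question Q2 of MP_64d5df_nt holds for `n`-sets exactly when `n ≤ 2`.
-/

namespace Pool.Agent.Results.MP_64d5df_nt.PrimitiveQ2IffAtMostTwo

open Pool.Agent.Lib.MP_64d5df_nt

/-- Coprime speeds of different parity: the gap of a pair is at least `1/2 - 1/(2(u+v))`. -/
lemma le_kappa_pair {u v : ℕ} (hcop : Nat.Coprime u v) (hodd : Odd (u + v)) :
    1 / 2 - 1 / (2 * ((u : ℝ) + v)) ≤ kappa {u, v} := by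
  obtain ⟨m, hm⟩ := hodd
  -- s = 2 m + 1; find k with k u ≡ m mod s
  have hcop' : Nat.Coprime u (2 * m + 1) := by
    rw [← hm]
    simpa using hcop
  obtain ⟨k, hk⟩ : ∃ k : ℤ, ∃ z : ℤ, (k : ℤ) * u = m + z * (2 * m + 1) := by
    have hb := Nat.gcd_eq_gcd_ab u (2 * m + 1)
    rw [hcop'] at hb
    refine ⟨m * Nat.gcdA u (2 * m + 1), -(m * Nat.gcdB u (2 * m + 1)), ?_⟩
    push_cast at hb
    linear_combination -(m : ℤ) * hb
  obtain ⟨z, hz⟩ := hk
  have hs : (0 : ℝ) < 2 * (m : ℝ) + 1 := by positivity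
  have hm' : (u : ℝ) + v = 2 * m + 1 := by exact_mod_cast hm
  have hz' : (k : ℝ) * u = m + z * (2 * m + 1) := by exact_mod_cast hz
  have hbound : 1 / 2 - 1 / (2 * ((u : ℝ) + v)) = m / (2 * m + 1) := by
    rw [hm']
    field_simp
    ring
  rw [hbound]
  have hle1 : (m : ℝ) / (2 * m + 1) ≤ 1 - m / (2 * m + 1) := by
    rw [div_le_iff₀ hs, sub_mul, div_mul_cancel₀ _ hs.ne']
    linarith
  have hle2 : (m : ℝ) / (2 * m + 1) ≤ (m + 1) / (2 * m + 1) := by
    apply div_le_div_of_nonneg_right _ hs.le
    linarith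
  have hle3 : ((m : ℝ) + 1) / (2 * m + 1) = 1 - m / (2 * m + 1) := by
    field_simp
    ring
  apply le_kappa ⟨u, by simp⟩ ((k : ℝ) / (2 * m + 1))
  intro w hw
  rw [Finset.mem_insert, Finset.mem_singleton] at hw
  rcases hw with rfl | rfl
  · have e : (k : ℝ) / (2 * m + 1) * (w : ℝ) - (z : ℤ) = m / (2 * m + 1) := by
      field_simp
      linarith
    apply le_distInt_of_mem z
    · rw [e]
    · rw [e]; exact hle1
  · have e : (k : ℝ) / (2 * m + 1) * (w : ℝ) - ((k - z - 1 : ℤ) : ℝ) = (m + 1) / (2 * m + 1) := by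
      have hw' : (w : ℝ) = 2 * m + 1 - u := by linarith
      rw [hw']
      push_cast
      field_simp
      linear_combination -hz'
    apply le_distInt_of_mem (k - z - 1)
    · rw [e]; exact hle2
    · rw [e, hle3]

lemma kappa_singleton {w : ℕ} (hw : 0 < w) : kappa {w} = 1 / 2 := by
  apply le_antisymm (kappa_le_half _)
  apply le_kappa ⟨w, by simp⟩ (1 / (2 * w))
  intro v hv
  rw [Finset.mem_singleton] at hv
  subst hv
  have : (0 : ℝ) < v := by exact_mod_cast hw
  have e : 1 / (2 * (v : ℝ)) * v - ((0 : ℤ) : ℝ) = 1 / 2 := by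
    push_cast
    field_simp
    ring
  apply le_distInt_of_mem 0
  · rw [e]
  · rw [e]; norm_num

/-- For every `n ≥ 1`: the inequality `κ(a + V) ≥ κ(V)` holds for all `a` and all primitive
`n`-sets `V` with `a + V` primitive if and only if `n ≤ 2`. -/
theorem result (n : ℕ) (hn : 1 ≤ n) :
    (∀ V : Finset ℕ, ∀ a : ℕ, IsSpeedSet n V → 0 < a → V.gcd id = 1 → (shiftBy a V).gcd id = 1 →
      kappa V ≤ kappa (shiftBy a V)) ↔ n ≤ 2 := by
  constructor
  · intro h
    by_contra hcon
    obtain ⟨V, hV, hg1, hg2, hlow, _, hup⟩ :=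
      PrimitiveTranslationFails.result n (by omega) (1 / 6) (by norm_num)
    have h1 := h V 1 hV one_pos hg1 hg2
    have hn' : (3 : ℝ) ≤ n := by exact_mod_cast (by omega : 3 ≤ n)
    have h3 : 1 / (n : ℝ) ≤ 1 / 3 := one_div_le_one_div_of_le (by norm_num) hn'
    rw [hup] at h1
    linarith
  · intro h V a hV _ _ hg
    rcases (by omega : n = 1 ∨ n = 2) with rfl | rfl
    · obtain ⟨v, rfl⟩ := Finset.card_eq_one.mp hV.1
      have hv : 0 < v := hV.2 v (by simp)
      have : shiftBy a {v} = {a + v} := by simp [shiftBy]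
      rw [this]
      exact (kappa_le_half _).trans_eq (kappa_singleton (by omega)).symm
    · obtain ⟨u, v, huv, rfl⟩ := Finset.card_eq_two.mp hV.1
      have hu : 0 < u := hV.2 u (by simp)
      have hv : 0 < v := hV.2 v (by simp)
      have hsh : shiftBy a {u, v} = {a + u, a + v} := by
        simp [shiftBy, Finset.image_insert]
      rw [hsh] at hg ⊢
      have hcop : Nat.Coprime (a + u) (a + v) := by
        rw [Finset.gcd_insert, Finset.gcd_singleton] at hg
        simpa [Nat.Coprime, gcd_eq_nat_gcd] using hg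
      rcases Nat.even_or_odd (u + v) with he | ho
      · -- both translated speeds odd
        refine (kappa_le_half _).trans_eq (kappa_of_odd (Finset.insert_nonempty _ _) ?_).symm
        · have hne : ¬ (Even (a + u) ∧ Even (a + v)) := by
            rintro ⟨h1, h2⟩
            have := Nat.dvd_gcd h1.two_dvd h2.two_dvd
            rw [hcop] at this
            omega
          have hpar : Even (a + u) ↔ Even (a + v) := by
            rw [Nat.even_add, Nat.even_add, Nat.even_add.mp he]
          intro w hw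
          rw [Finset.mem_insert, Finset.mem_singleton] at hw
          rw [← Nat.not_even_iff_odd]
          rcases hw with rfl | rfl
          · exact fun h1 => hne ⟨h1, hpar.mp h1⟩
          · exact fun h1 => hne ⟨hpar.mpr h1, h1⟩
      · have hodd2 : Odd (a + u + (a + v)) := by
          obtain ⟨r, hr⟩ := ho
          exact ⟨a + r, by omega⟩
        have hlow := le_kappa_pair hcop hodd2
        have hupp := kappa_le_of_pair (V := {u, v}) (u := u) (v := v) (by simp) (by simp) ho
        refine hupp.trans (le_trans ?_ hlow)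
        have hu' : (0 : ℝ) < u := by exact_mod_cast hu
        have hv' : (0 : ℝ) < v := by exact_mod_cast hv
        have ha' : (0 : ℝ) ≤ a := Nat.cast_nonneg a
        have : 1 / (2 * (((a + u : ℕ) : ℝ) + ((a + v : ℕ) : ℝ))) ≤ 1 / (2 * ((u : ℝ) + v)) := by
          apply one_div_le_one_div_of_le (by positivity)
          push_cast
          linarith
        linarith

end Pool.Agent.Results.MP_64d5df_nt.PrimitiveQ2IffAtMostTwo
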