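import Mathlib
import Pool.Agent.Lib.MP_64d5df_nt.Basic

/-!
Question Q2 of MP_64d5df_nt has a negative answer for every cardinality `n ≥ 2`, in the
extreme form: the `n`-set `V = {1, 3, …, 2n-1}` has the largest possible gap `1/2`, and its
shiftBy `1 + V = {2, 4, …, 2n}` has gap exactly `1/(n+1)`.
-/

namespace Pool.Agent.Results.MP_64d5df_nt.TranslationLosesEverything

open Pool.Agent.Lib.MP_64d5df_nt

/-- The set of the first `n` odd numbers. -/
def firstOdds (n : ℕ) : Finset ℕ := (Finset.range n).image (fun i => 2 * i + 1)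

lemma isSpeedSet_firstOdds (n : ℕ) : IsSpeedSet n (firstOdds n) := by
  constructor
  · rw [firstOdds, Finset.card_image_of_injective _ (fun x y h => by
      have h' : 2 * x + 1 = 2 * y + 1 := h
      omega), Finset.card_range]
  · intro v hv
    obtain ⟨i, _, rfl⟩ := Finset.mem_image.mp hv
    omega

lemma shiftBy_firstOdds (n : ℕ) :
    shiftBy 1 (firstOdds n) = (Finset.Icc 1 n).image (fun v => 2 * v) := by
  ext w
  simp only [shiftBy, firstOdds, Finset.mem_image, Finset.mem_range, Finset.mem_Icc]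
  constructor
  · rintro ⟨v, ⟨i, hi, rfl⟩, rfl⟩
    exact ⟨i + 1, by omega, by omega⟩
  · rintro ⟨v, hv, rfl⟩
    exact ⟨2 * (v - 1) + 1, ⟨v - 1, by omega, rfl⟩, by omega⟩

theorem result :
    ∀ n : ℕ, 2 ≤ n → ∃ V : Finset ℕ, ∃ a : ℕ, IsSpeedSet n V ∧ 0 < a ∧
      kappa V = 1 / 2 ∧ kappa (shiftBy a V) = 1 / ((n : ℝ) + 1) ∧
      kappa (shiftBy a V) < kappa V := by
  intro n hn
  have h1 : kappa (firstOdds n) = 1 / 2 := by
    apply kappa_of_odd ((isSpeedSet_firstOdds n).nonempty (by omega))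
    intro v hv
    obtain ⟨i, _, rfl⟩ := Finset.mem_image.mp hv
    exact ⟨i, rfl⟩
  have h2 : kappa (shiftBy 1 (firstOdds n)) = 1 / ((n : ℝ) + 1) := by
    rw [shiftBy_firstOdds, kappa_image_mul _ (by norm_num), kappa_Icc (by omega)]
  refine ⟨firstOdds n, 1, isSpeedSet_firstOdds n, one_pos, h1, h2, ?_⟩
  rw [h1, h2]
  have : (2 : ℝ) ≤ n := by exact_mod_cast hn
  apply one_div_lt_one_div_of_lt <;> linarith

end Pool.Agent.Results.MP_64d5df_nt.TranslationLosesEverything
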